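import Pool.Agent.H44.JoinB

open MeasureTheory Real Pool.Agent.H44.GM

theorem Pool.Agent.Results.MP_ba1a3e_pr.ChiSq.result (M : ℝ) (d : ℕ) (μ ν : Measure (EuclideanSpace ℝ (Fin d)))
    [IsProbabilityMeasure μ] [IsProbabilityMeasure ν]
    (hμ : μ.support ⊆ Metric.closedBall 0 M) (hν : ν.support ⊆ Metric.closedBall 0 M) :
    Integrable (fun x => (mix d μ x - mix d ν x) ^ 2 / mix d ν x) ∧
    Integrable (fun x => (√(mix d μ x) - √(mix d ν x)) ^ 2) ∧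
    ∫ x, (mix d μ x - mix d ν x) ^ 2 / mix d ν x ≤
      13 * exp (4 * M ^ 2) * ∫ x, (√(mix d μ x) - √(mix d ν x)) ^ 2 :=
  have h := Pool.Agent.H44.JoinB.result M d μ ν hμ hν
  ⟨h.2.1, h.2.2.1, h.2.2.2.2⟩
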